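import Pool.Agent.H.MP_442888_an.Defs

open MeasureTheory Set Filter Topology

namespace Pool.Agent.H.MP_442888_an

abbrev M := Quotient lat
abbrev I : Set ℝ := Ico 0 1
abbrev T := UnitAddCircle

lemma mk_meas : Measurable (Quotient.mk lat) := measurable_quotient_mk''

lemma meas_iff {β : Type*} [MeasurableSpace β] (f : M → β) :
    Measurable f ↔ Measurable (f ∘ Quotient.mk lat) := measurable_from_quotient

lemma flow_mk (X : ℝ × ℝ × ℝ) (t : ℝ) (g : ℝ × ℝ × ℝ) : flow X t (Quotient.mk lat g) =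
    Quotient.mk lat (g.1 + t * X.1, g.2.1 + t * X.2.1,
      g.2.2 + (t * X.2.2 + t ^ 2 * X.1 * X.2.1 / 2) + g.1 * (t * X.2.1)) := rfl

lemma flow_meas (X : ℝ × ℝ × ℝ) (t : ℝ) : Measurable (flow X t) := by
  rw [meas_iff]
  exact mk_meas.comp (f := fun g : ℝ × ℝ × ℝ => (g.1 + t * X.1, g.2.1 + t * X.2.1,
      g.2.2 + (t * X.2.2 + t ^ 2 * X.1 * X.2.1 / 2) + g.1 * (t * X.2.1))) (by fun_prop)

lemma mk_eq (a b c : ℤ) (x y z : ℝ) :
    Quotient.mk lat (x + a, y + b, z + a * y + c) = Quotient.mk lat (x, y, z) :=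
  (Quotient.sound (s := lat) ⟨a, b, c, by simp [mul]; refine ⟨by ring, by ring, by ring⟩⟩).symm

lemma per (h : ℝ → ENNReal) (hp : ∀ s, h (s + 1) = h s) (c : ℝ) :
    ∫⁻ s in I, h (s + c) = ∫⁻ s in I, h s := by
  have h1 := (measurePreserving_add_right (volume : Measure ℝ) c).setLIntegral_comp_preimage_emb
    (measurableEmbedding_addRight c) h (Ioc c (c + 1))
  have h2 : (fun x => x + c) ⁻¹' Ioc c (c + 1) = Ioc 0 1 := by ext x; simp
  rw [h2] at h1
  rw [setLIntegral_congr Ico_ae_eq_Ioc, h1, setLIntegral_congr Ico_ae_eq_Ioc]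
  have h3 := (isAddFundamentalDomain_Ioc one_pos c).setLIntegral_eq
    (isAddFundamentalDomain_Ioc one_pos 0) h (by
      rintro ⟨_, n, rfl⟩ x
      have : Function.Periodic h 1 := hp
      simpa [add_comm] using (this.zsmul n) x)
  simpa using h3

lemma lint (f : M → ENNReal) (hf : Measurable f) :
    ∫⁻ q, f q ∂mu = ∫⁻ x in I, ∫⁻ y in I, ∫⁻ z in I, f (Quotient.mk lat (x, y, z)) := by
  unfold mu
  rw [lintegral_map hf mk_meas, Measure.volume_eq_prod, ← Measure.prod_restrict,
    lintegral_prod (fun a => f (Quotient.mk lat a)) (hf.comp mk_meas).aemeasurable]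
  refine lintegral_congr fun x => ?_
  rw [Measure.volume_eq_prod, ← Measure.prod_restrict, lintegral_prod]
  exact ((hf.comp mk_meas).comp (by fun_prop)).aemeasurable

instance : IsProbabilityMeasure mu := ⟨by
  rw [← lintegral_one, lint _ measurable_const]; simp⟩

lemma mu_inv (X : ℝ × ℝ × ℝ) (t : ℝ) : MeasurePreserving (flow X t) mu mu := by
  refine ⟨flow_meas X t, Measure.ext_of_lintegral _ fun f hf => ?_⟩
  rw [lintegral_map hf (flow_meas X t), lint (fun a => f (flow X t a)) (hf.comp (flow_meas X t)),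
    lint _ hf]
  simp only [flow_mk]
  have pz : ∀ x y c, ∫⁻ z in I, f (Quotient.mk lat (x, y, z + c)) =
      ∫⁻ z in I, f (Quotient.mk lat (x, y, z)) := fun x y c =>
    per (fun z => f (Quotient.mk lat (x, y, z)))
      (fun s => by simpa using congrArg f (mk_eq 0 0 1 x y s)) c
  have py : ∀ x c, ∫⁻ y in I, ∫⁻ z in I, f (Quotient.mk lat (x, y + c, z)) =
      ∫⁻ y in I, ∫⁻ z in I, f (Quotient.mk lat (x, y, z)) := fun x c =>
    per (fun y => ∫⁻ z in I, f (Quotient.mk lat (x, y, z)))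
      (fun s => lintegral_congr fun z => by simpa using congrArg f (mk_eq 0 1 0 x s z)) c
  simp only [add_assoc, pz, py]
  refine per (fun x => ∫⁻ y in I, ∫⁻ z in I, f (Quotient.mk lat (x, y, z))) (fun s => ?_) _
  refine lintegral_congr fun y => ?_
  rw [← pz (s + 1) y y]
  exact lintegral_congr fun z => by simpa using congrArg f (mk_eq 1 0 0 s y z)

/-- the linear form n y + m x + c with values in the circle -/
noncomputable def lin (n m : ℤ) (c : ℝ) : M → T :=
  Quotient.lift (fun g => ((n * g.2.1 + m * g.1 + c : ℝ) : T)) (by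
    rintro g _ ⟨a, b, e, rfl⟩
    rw [eq_comm, ← sub_eq_zero, ← AddCircle.coe_sub, AddCircle.coe_eq_zero_iff]
    exact ⟨n * b + m * a, by simp [mul]; ring⟩)

lemma lin_mk (n m : ℤ) (c : ℝ) (g : ℝ × ℝ × ℝ) :
    lin n m c (Quotient.mk lat g) = ((n * g.2.1 + m * g.1 + c : ℝ) : T) := rfl

lemma lin_meas (n m : ℤ) (c : ℝ) : Measurable (lin n m c) := by
  rw [meas_iff]
  exact AddCircle.measurable_mk'.comp
    (f := fun g : ℝ × ℝ × ℝ => (n * g.2.1 + m * g.1 + c : ℝ)) (by fun_prop)

lemma lin_pres (n m : ℤ) (c : ℝ) (hn : n ≠ 0) : MeasurePreserving (lin n m c) mu volume := by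
  refine ⟨lin_meas n m c, Measure.ext_of_lintegral _ fun f hf => ?_⟩
  rw [lintegral_map hf (lin_meas n m c), lint (fun a => f (lin n m c a)) (hf.comp (lin_meas n m c))]
  have key : ∀ d : ℝ, ∫⁻ y in I, f ((n * y + d : ℝ) : T) = ∫⁻ v, f v := by
    intro d
    have h1 : MeasurePreserving (fun y : ℝ => n • (y : T) + (d : T))
        (volume.restrict (Ioc 0 (0 + 1))) volume :=
      (measurePreserving_add_right volume (d : T)).comp
        ((Measure.measurePreserving_zsmul volume hn).comp (UnitAddCircle.measurePreserving_mk 0))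
    rw [← h1.lintegral_comp hf, setLIntegral_congr Ico_ae_eq_Ioc, zero_add]
    refine lintegral_congr fun y => ?_
    rw [AddCircle.coe_add, ← zsmul_eq_mul, AddCircle.coe_zsmul]
  simp only [lin_mk, add_assoc, lintegral_const, Measure.restrict_apply_univ, Real.volume_Ico,
    sub_zero, ENNReal.ofReal_one, mul_one, key]

lemma lin_ball (n m : ℤ) (c r : ℝ) (hn : n ≠ 0) (hr : r ≤ 1 / 2) :
    mu {q | ‖lin n m c q‖ ≤ r} = ENNReal.ofReal (2 * r) := by
  have := (lin_pres n m c hn).measure_preimage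
    (s := Metric.closedBall 0 r) measurableSet_closedBall.nullMeasurableSet
  rw [AddCircle.volume_closedBall, min_eq_right (by linarith)] at this
  rw [← this]; congr 1; ext q; simp

end Pool.Agent.H.MP_442888_an
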