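import Pool.Agent.H.MP_442888_an.U

open MeasureTheory Set Filter Topology
open scoped Real ContDiff

namespace Pool.Agent.H.MP_442888_an

lemma exists_seq (R : ℕ → ℕ → ℕ → ℝ) : ∃ θ : ℝ, Irrational θ ∧ 1 ≤ θ ∧ ∃ p Q : ℕ → ℕ,
    (∀ k, 0 < Q k) ∧ Monotone Q ∧ ∀ k, 0 < Q k * θ - p k ∧
      (Q k * θ - p k) * R k (p k) (Q k) ≤ 1 ∧ 1 ≤ (Q k * θ - p k) * Q (k + 1) := by
  let W : ℕ → ℕ × ℕ → ℕ := fun k s => ⌈2 * R k s.1 s.2⌉₊ + k + 2
  let s : ℕ → ℕ × ℕ := fun k => Nat.rec (1, 1) (fun k s => (s.1 * W k s + 1, s.2 * W k s)) k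
  set p : ℕ → ℕ := fun k => (s k).1
  set Q : ℕ → ℕ := fun k => (s k).2
  set w : ℕ → ℕ := fun k => W k (s k)
  have hp : ∀ k, (p (k + 1) : ℝ) = p k * w k + 1 := fun k => by
    have : p (k + 1) = p k * w k + 1 := rfl
    exact_mod_cast this
  have hQ' : ∀ k, Q (k + 1) = Q k * w k := fun k => rfl
  have hQ : ∀ k, (Q (k + 1) : ℝ) = Q k * w k := fun k => by exact_mod_cast hQ' k
  have hw' : ∀ k, k + 2 ≤ w k := fun k => by simp only [w, W]; omega
  have hw : ∀ k : ℕ, (k : ℝ) + 2 ≤ w k := fun k => by exact_mod_cast hw' k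
  have hw2 : ∀ k : ℕ, (2 : ℝ) ≤ w k := fun k => by linarith [hw k, k.cast_nonneg (α := ℝ)]
  have hR : ∀ k, 2 * R k (p k) (Q k) ≤ w k := fun k => by
    have := Nat.le_ceil (2 * R k (p k) (Q k))
    simp only [w, W]; push_cast; linarith [k.cast_nonneg (α := ℝ)]
  have Qpos : ∀ k, 0 < Q k := fun k => by
    induction k with
    | zero => exact one_pos
    | succ k ih => rw [hQ']; exact Nat.mul_pos ih (by linarith [hw' k])
  have Qp : ∀ k, (1 : ℝ) ≤ Q k := fun k => by exact_mod_cast Qpos k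
  have m1 : Monotone fun k => (p k : ℝ) / Q k := monotone_nat_of_le_succ fun k => by
    have := Qp k; have := hw2 k
    rw [hp, hQ, div_le_div_iff₀ (by positivity) (by positivity)]; nlinarith
  have m2 : Antitone fun k => ((p k : ℝ) + 1) / Q k := antitone_nat_of_succ_le fun k => by
    have := Qp k; have := hw2 k
    rw [hp, hQ, div_le_div_iff₀ (by positivity) (by positivity)]; nlinarith
  have hθ := m1.ciSup_mem_iInter_Icc_of_antitone m2 fun k => by
    have := Qp k; show _ / _ ≤ _ / _; gcongr; linarith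
  set θ := ⨆ k, (p k : ℝ) / Q k
  have h01 : ∀ k, 0 ≤ Q k * θ - p k ∧ Q k * θ - p k ≤ 1 := fun k => by
    have := mem_iInter.1 hθ k
    have hq : (0 : ℝ) < Q k := by linarith [Qp k]
    rw [mem_Icc, div_le_iff₀ hq, le_div_iff₀ hq] at this
    constructor <;> linarith [this.1, this.2]
  have h12 : ∀ k, 1 ≤ (Q k * θ - p k) * w k ∧ (Q k * θ - p k) * w k ≤ 2 := fun k => by
    have := h01 (k + 1)
    rw [hp, hQ] at this
    constructor <;> linarith [this.1, this.2]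
  have hpos : ∀ k, 0 < Q k * θ - p k := fun k =>
    pos_of_mul_pos_left (lt_of_lt_of_le one_pos (h12 k).1) (by positivity)
  refine ⟨θ, ?_, ?_, p, Q, Qpos, monotone_nat_of_le_succ fun k => ?_, fun k => ⟨hpos k, ?_, ?_⟩⟩
  · rintro ⟨r, hr⟩
    have h1 : ((Q (2 * r.den) * r.num - r.den * p (2 * r.den) : ℤ) : ℝ) =
        r.den * (Q (2 * r.den) * θ - p (2 * r.den)) := by
      have : (r.den : ℝ) ≠ 0 := by exact_mod_cast r.den_nz
      rw [← hr, Rat.cast_def]; push_cast; field_simp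
    have hd : (0 : ℝ) < r.den := by exact_mod_cast r.den_pos
    have h2 := hpos (2 * r.den)
    have h3 := (h12 (2 * r.den)).2
    have h4 := hw (2 * r.den)
    push_cast at h4
    have h5 : (0 : ℝ) < ((Q (2 * r.den) * r.num - r.den * p (2 * r.den) : ℤ) : ℝ) := by
      rw [h1]; positivity
    have h6 : ((Q (2 * r.den) * r.num - r.den * p (2 * r.den) : ℤ) : ℝ) < 1 := by
      rw [h1]; nlinarith
    have h7 := Int.cast_pos.1 h5
    have h8 : (Q (2 * r.den) * r.num - r.den * p (2 * r.den) : ℤ) < 1 := by exact_mod_cast h6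
    omega
  · have := (h01 0).1
    have e1 : p 0 = 1 := rfl
    have e2 : Q 0 = 1 := rfl
    rw [e1, e2] at this; push_cast at this; linarith
  · rw [hQ']; exact Nat.le_mul_of_pos_right _ (by linarith [hw' k])
  · nlinarith [hpos k, hR k, (h12 k).2]
  · rw [hQ]; nlinarith [(h12 k).1, Qp k]

noncomputable def U (k : ℕ) (s : ℝ) : ℝ := Real.smoothTransition (2 ^ (k + 4) * Real.cos (2 * π * s))

noncomputable def V (k : ℕ) : ℝ → ℝ := deriv (U k)

lemma U_smooth (k : ℕ) : ContDiff ℝ ∞ (U k) :=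
  Real.smoothTransition.contDiff.comp (by fun_prop)

lemma V_smooth (k : ℕ) : ContDiff ℝ ∞ (V k) := (contDiff_infty_iff_deriv.1 (U_smooth k)).2

lemma U_per (k : ℕ) : Function.Periodic (U k) 1 := fun s => by simp [U, mul_add]

lemma per_deriv {f : ℝ → ℝ} (h : Function.Periodic f 1) : Function.Periodic (deriv f) 1 :=
  fun s => by rw [← deriv_comp_add_const]; simp [h _]

lemma V_per (k : ℕ) : Function.Periodic (V k) 1 := per_deriv (U_per k)

lemma per_rp {f : ℝ → ℝ} (h : Function.Periodic f 1) (x : ℝ) : f (rp x) = f x := by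
  rw [rp_coe, Int.fract]; simpa using h.sub_int_mul_eq (x := x) ⌊x⌋

lemma V_bd (k : ℕ) (p Q : ℝ) : ∃ B : ℝ, 0 < B ∧ ∀ i ≤ k, ∀ g,
    ‖iteratedFDeriv ℝ i (fun g : ℝ × ℝ × ℝ => V k (Q * g.2.1 - p * g.1)) g‖ ≤ B := by
  have h1 : ∀ i : ℕ, ∃ B : ℝ, ∀ g,
      ‖iteratedFDeriv ℝ i (fun g : ℝ × ℝ × ℝ => V k (Q * g.2.1 - p * g.1)) g‖ ≤ B := by
    intro i
    have hper : Function.Periodic (iteratedDeriv i (V k)) 1 := by
      induction i with
      | zero => exact V_per k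
      | succ i ih => rw [iteratedDeriv_succ]; exact per_deriv ih
    obtain ⟨C, hC⟩ := (hper.isBounded_of_continuous one_ne_zero
      ((V_smooth k).continuous_iteratedDeriv i (by exact_mod_cast le_top))).exists_norm_le
    let L : ℝ × ℝ × ℝ →L[ℝ] ℝ :=
      Q • (ContinuousLinearMap.fst ℝ ℝ ℝ).comp (ContinuousLinearMap.snd ℝ ℝ (ℝ × ℝ)) -
        p • ContinuousLinearMap.fst ℝ ℝ (ℝ × ℝ)
    refine ⟨C * ∏ _ : Fin i, ‖L‖, fun g => ?_⟩
    have := L.iteratedFDeriv_comp_right (V_smooth k) g (i := i) (by exact_mod_cast le_top)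
    change ‖iteratedFDeriv ℝ i (V k ∘ L) g‖ ≤ _
    rw [this]
    refine (ContinuousMultilinearMap.norm_compContinuousLinearMap_le _ _).trans ?_
    gcongr
    rw [norm_iteratedFDeriv_eq_norm_iteratedDeriv]
    exact hC _ ⟨_, rfl⟩
  choose B hB using h1
  refine ⟨∑ i ∈ Finset.range (k + 1), |B i| + 1, by positivity, fun i hi g => ?_⟩
  have := Finset.single_le_sum (f := fun i => |B i|) (fun _ _ => abs_nonneg _)
    (Finset.mem_range.2 (Nat.lt_succ_of_le hi))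
  linarith [hB i g, le_abs_self (B i)]

structure D where
  θ : ℝ
  p : ℕ → ℕ
  Q : ℕ → ℕ
  irr : Irrational θ
  one : 1 ≤ θ
  Qpos : ∀ k, 0 < Q k
  Qmono : Monotone Q
  dpos : ∀ k, 0 < Q k * θ - p k
  dlow : ∀ k, 1 ≤ (Q k * θ - p k) * Q (k + 1)
  bd : ∀ k i, i ≤ k → ∀ g, ‖iteratedFDeriv ℝ i
    (fun g : ℝ × ℝ × ℝ => 3 ^ k * (Q k * θ - p k) * V k (Q k * g.2.1 - p k * g.1)) g‖ ≤
      (1 / 2) ^ (k + 2) / Q k

lemma exD : Nonempty D := by
  choose B hB0 hB using V_bd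
  obtain ⟨θ, h1, h2, p, Q, h3, h4, h5⟩ :=
    exists_seq fun k p Q => 3 ^ k * B k p Q * 2 ^ (k + 2) * Q
  refine ⟨⟨θ, p, Q, h1, h2, h3, h4, fun k => (h5 k).1, fun k => (h5 k).2.2, fun k i hi g => ?_⟩⟩
  have hs : ContDiff ℝ i fun g : ℝ × ℝ × ℝ => V k (Q k * g.2.1 - p k * g.1) :=
    ((V_smooth k).of_le (by exact_mod_cast le_top)).comp (by fun_prop)
  have := iteratedFDeriv_const_smul_apply' (a := 3 ^ k * (Q k * θ - p k)) (x := g) hs.contDiffAt
  simp only [smul_eq_mul] at this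
  have hq : (0 : ℝ) < Q k := by exact_mod_cast h3 k
  have h6 := (h5 k).1
  have h7 := (h5 k).2.1
  rw [this, norm_smul, Real.norm_of_nonneg (by positivity), one_div_pow, div_div,
    le_div_iff₀ (by positivity)]
  refine le_trans ?_ h7
  calc _ ≤ 3 ^ k * (Q k * θ - p k) * B k (p k) (Q k) * (2 ^ (k + 2) * Q k) := by
        gcongr; exact hB k _ _ i hi g
    _ = _ := by ring

lemma cosl {s : ℝ} (h : ‖(s : T)‖ ≤ 1 / 8) : 1 / 2 ≤ Real.cos (2 * π * s) := by
  rw [UnitAddCircle.norm_eq] at h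
  rw [← Real.cos_sub_int_mul_two_pi _ (round s)]
  have h1 := Real.one_sub_sq_div_two_le_cos (x := 2 * π * s - round s * (2 * π))
  have h2 : (s - round s) ^ 2 ≤ (1 / 8) ^ 2 := by rw [← sq_abs]; gcongr
  have h3 : π ^ 2 ≤ 16 := by nlinarith [Real.pi_le_four, Real.pi_pos]
  nlinarith [mul_le_mul h3 h2 (sq_nonneg _) (by norm_num)]

lemma U_one (k : ℕ) {s : ℝ} (h : ‖(s : T)‖ ≤ 1 / 8) : U k s = 1 ∧ U k (s + 1 / 2) = 0 := by
  have h1 := cosl h
  have h2 : (2 : ℝ) ^ 1 ≤ 2 ^ (k + 4) := pow_le_pow_right₀ one_le_two (by omega)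
  refine ⟨Real.smoothTransition.one_of_one_le (by nlinarith),
    Real.smoothTransition.zero_of_nonpos ?_⟩
  rw [show 2 * π * (s + 1 / 2) = 2 * π * s + π by ring, Real.cos_add_pi]
  nlinarith

lemma U_bad (k : ℕ) {s : ℝ} (h0 : U k s ≠ 0) (h1 : U k s ≠ 1) :
    ‖((2 * s + 1 / 2 : ℝ) : T)‖ ≤ (1 / 2) ^ (k + 5) := by
  have a0 : 0 < 2 ^ (k + 4) * Real.cos (2 * π * s) :=
    not_le.1 fun h => h0 (Real.smoothTransition.zero_of_nonpos h)
  have a1 : 2 ^ (k + 4) * Real.cos (2 * π * s) < 1 :=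
    not_le.1 fun h => h1 (Real.smoothTransition.one_of_one_le h)
  have a2 : 0 < Real.cos (2 * π * s) := pos_of_mul_pos_right a0 (by positivity)
  have a3 : Real.cos (2 * π * s) ≤ 2 * (1 / 2) ^ (k + 5) := by
    rw [show 2 * (1 / 2 : ℝ) ^ (k + 5) = 1 / 2 ^ (k + 4) by
      rw [pow_succ (1 / 2 : ℝ), one_div_pow]; ring, le_div_iff₀ (by positivity)]
    linarith
  rw [UnitAddCircle.norm_eq]
  set r := 2 * s + 1 / 2 - round (2 * s + 1 / 2) with hr
  have a4 : |2 * π * r| ≤ π := by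
    rw [abs_mul, abs_of_pos Real.two_pi_pos]
    nlinarith [abs_sub_round (2 * s + 1 / 2), Real.pi_pos]
  have a5 := Real.cos_le_one_sub_mul_cos_sq a4
  have a6 : Real.cos (2 * π * r) = 1 - 2 * Real.cos (2 * π * s) ^ 2 := by
    rw [show 2 * π * r = 2 * (2 * π * s) + π - round (2 * s + 1 / 2) * (2 * π) by rw [hr]; ring,
      Real.cos_sub_int_mul_two_pi, Real.cos_add_pi, Real.cos_two_mul]; ring
  have a7 : 2 / π ^ 2 * (2 * π * r) ^ 2 = 8 * r ^ 2 := by field_simp; ring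
  refine abs_le_of_sq_le_sq ?_ (by positivity)
  nlinarith

end Pool.Agent.H.MP_442888_an
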