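import Pool.Agent.H.MP_442888_an.B

open MeasureTheory Set Filter Topology
open scoped Real ContDiff

namespace Pool.Agent.H.MP_442888_an
namespace D

variable (d : D)

noncomputable def δ (k : ℕ) : ℝ := d.Q k * d.θ - d.p k
noncomputable def L (k : ℕ) (q : M) : ℝ := rp (lin (d.Q k) (-d.p k) 0 q)
noncomputable def u (k : ℕ) (q : M) : ℝ := 3 ^ k * U k (d.L k q)
noncomputable def a (k : ℕ) (q : M) : ℝ := 3 ^ k * d.δ k * V k (d.L k q)
noncomputable def α (q : M) : ℝ := d.θ + ∑' k, d.a k q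
noncomputable def φ (t : ℝ) (q : M) : M := flow (1, d.θ, 0) t q
noncomputable def F (q : M) (τ : ℝ) : ℝ := ∫ s in (0 : ℝ)..τ, d.α (d.φ s q)

lemma per_L {f : ℝ → ℝ} (h : Function.Periodic f 1) (k : ℕ) (g : ℝ × ℝ × ℝ) :
    f (d.L k (Quotient.mk lat g)) = f (d.Q k * g.2.1 - d.p k * g.1) := by
  rw [L, lin_mk, per_rp h]; congr 1; push_cast; ring

lemma per_φ {f : ℝ → ℝ} (h : Function.Periodic f 1) (k : ℕ) (q : M) (s : ℝ) :
    f (d.L k (d.φ s q)) = f (d.L k q + s * d.δ k) := by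
  obtain ⟨g, rfl⟩ := Quotient.exists_rep q
  rw [φ, flow_mk, d.per_L h, d.per_L (h.add_const (s * d.δ k))]
  congr 1; simp only [δ]; ring

lemma Qp (k : ℕ) : (1 : ℝ) ≤ d.Q k := by exact_mod_cast d.Qpos k

lemma a_bd (k : ℕ) (q : M) : ‖d.a k q‖ ≤ (1 / 2) ^ (k + 2) / d.Q k := by
  obtain ⟨g, rfl⟩ := Quotient.exists_rep q
  have := d.bd k 0 k.zero_le g
  rw [norm_iteratedFDeriv_zero] at this
  rwa [a, d.per_L (V_per k)]

lemma a_bd' (k : ℕ) (q : M) : ‖d.a k q‖ ≤ (1 / 2) ^ (k + 2) :=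
  (d.a_bd k q).trans (div_le_self (by positivity) (d.Qp k))

lemma geo : HasSum (fun k : ℕ => (1 / 2 : ℝ) ^ (k + 2)) (1 / 2) := by
  have := hasSum_geometric_two.mul_right ((1 / 2 : ℝ) ^ 2)
  simp only [← pow_add] at this
  rwa [show (2 : ℝ) * (1 / 2) ^ 2 = 1 / 2 by norm_num] at this

lemma a_sum (q : M) : Summable fun k => d.a k q := .of_norm_bounded geo.summable (d.a_bd' · q)

lemma α_bd (q : M) : 1 / 2 ≤ d.α q ∧ d.α q ≤ d.θ + 1 / 2 := by
  have := abs_le.1 ((d.a_sum q).hasSum.norm_le_of_bounded geo (d.a_bd' · q))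
  unfold α
  constructor <;> linarith [this.1, this.2, d.one]

lemma α_smooth : ContDiff ℝ ∞ (d.α ∘ Quotient.mk lat) := by
  have : d.α ∘ Quotient.mk lat = fun g => d.θ + ∑' k, 3 ^ k * (d.Q k * d.θ - d.p k) *
      V k (d.Q k * g.2.1 - d.p k * g.1) := by
    ext g; simp only [Function.comp, α, a, d.per_L (V_per _), δ]
  rw [this]
  refine contDiff_const.add (contDiff_tsum_of_eventually (N := ⊤)
    (v := fun _ k => (1 / 2 : ℝ) ^ (k + 2))
    (fun k => contDiff_const.mul ((V_smooth k).comp (by fun_prop))) (fun _ _ => geo.summable) ?_)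
  intro i _
  rw [Nat.cofinite_eq_atTop]
  filter_upwards [eventually_ge_atTop i] with k hk g
  exact (d.bd k i hk g).trans (div_le_self (by positivity) (d.Qp k))

lemma α_meas : Measurable d.α := (meas_iff _).2 d.α_smooth.continuous.measurable

lemma α_cont (q : M) : Continuous fun s => d.α (d.φ s q) := by
  obtain ⟨g, rfl⟩ := Quotient.exists_rep q
  exact d.α_smooth.continuous.comp (f := fun t : ℝ => (g.1 + t * 1, g.2.1 + t * d.θ,
      g.2.2 + (t * 0 + t ^ 2 * 1 * d.θ / 2) + g.1 * (t * d.θ))) (by fun_prop)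

lemma a_cont (k : ℕ) (q : M) : Continuous fun s => d.a k (d.φ s q) := by
  simp only [a, d.per_φ (V_per k)]
  have := (V_smooth k).continuous
  fun_prop

lemma a_int (k : ℕ) (q : M) (τ : ℝ) :
    ∫ s in (0 : ℝ)..τ, d.a k (d.φ s q) = d.u k (d.φ τ q) - d.u k q := by
  rw [intervalIntegral.integral_eq_sub_of_hasDerivAt
    (f := fun s => 3 ^ k * U k (d.L k q + s * d.δ k)) ?_ ((d.a_cont k q).intervalIntegrable _ _)]
  · simp [u, d.per_φ (U_per k)]
  · intro s _
    have h1 := (((U_smooth k).differentiable (by simp)) (d.L k q + s * d.δ k)).hasDerivAt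
    have h2 := (h1.comp s (((hasDerivAt_id s).mul_const (d.δ k)).const_add (d.L k q))).const_mul
      (3 ^ k)
    refine h2.congr_deriv ?_
    rw [a, d.per_φ (V_per k), V]; ring

lemma hs (q : M) (τ : ℝ) : HasSum (fun k => d.u k (d.φ τ q) - d.u k q) (d.F q τ - d.θ * τ) := by
  have := intervalIntegral.hasSum_integral_of_dominated_convergence (μ := volume) (a := 0) (b := τ)
    (F := fun k s => d.a k (d.φ s q)) (f := fun s => d.α (d.φ s q) - d.θ)
    (fun k _ => (1 / 2 : ℝ) ^ (k + 2)) (fun k => (d.a_cont k q).aestronglyMeasurable)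
    (fun k => .of_forall fun s _ => d.a_bd' k _) (.of_forall fun _ _ => geo.summable)
    intervalIntegrable_const (.of_forall fun s _ => by simpa [α] using (d.a_sum _).hasSum)
  simp only [d.a_int] at this
  rw [intervalIntegral.integral_sub ((d.α_cont q).intervalIntegrable _ _)
    intervalIntegrable_const] at this
  simpa [F, mul_comm] using this

lemma F_surj (q : M) : Function.Surjective (d.F q) := by
  have hi := fun a b => (d.α_cont q).intervalIntegrable (μ := volume) a b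
  have h1 : ∀ a b, a ≤ b → (b - a) / 2 ≤ ∫ s in a..b, d.α (d.φ s q) := fun a b h => by
    have := intervalIntegral.integral_mono_on h (intervalIntegrable_const (c := (1 / 2 : ℝ)))
      (hi a b) fun s _ => (d.α_bd _).1
    simpa [div_eq_mul_inv] using this
  refine (intervalIntegral.continuous_primitive hi 0).surjective ?_ ?_
  · refine tendsto_atTop_mono' _ ?_ (tendsto_id.atTop_div_const two_pos)
    filter_upwards [eventually_ge_atTop 0] with t ht
    simpa using h1 0 t ht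
  · refine tendsto_atBot_mono' _ ?_ (tendsto_id.atBot_div_const two_pos)
    filter_upwards [eventually_le_atBot 0] with t ht
    have := h1 t 0 ht
    rw [intervalIntegral.integral_symm] at this
    simp only [id]; linarith

def A : Set M := {q | ‖lin 1 0 0 q‖ ≤ 1 / 8 ∧ ∀ k, U k (d.L k q) = 0 ∨ U k (d.L k q) = 1}

lemma A_meas : MeasurableSet d.A := by
  have h1 := (lin_meas 1 0 0).norm
  have h2 : ∀ k, Measurable fun q => U k (d.L k q) := fun k =>
    (U_smooth k).continuous.measurable.comp (rp_meas.comp (lin_meas _ _ _))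
  unfold A
  measurability

lemma A_pos : mu d.A ≠ 0 := by
  intro h0
  have hsub : {q | ‖lin 1 0 0 q‖ ≤ 1 / 8} ⊆
      d.A ∪ ⋃ k, {q | ‖lin (2 * d.Q k) (-2 * d.p k) (1 / 2) q‖ ≤ (1 / 2) ^ (k + 5)} := by
    intro q hq
    by_contra hc
    simp only [mem_union, mem_iUnion, not_or, not_exists] at hc
    refine hc.1 ⟨hq, fun k => ?_⟩
    by_contra h
    push Not at h
    obtain ⟨g, rfl⟩ := Quotient.exists_rep q
    rw [d.per_L (U_per k)] at h
    have := U_bad k h.1 h.2
    refine hc.2 k ?_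
    show ‖_‖ ≤ _
    rw [lin_mk]; convert this using 3; push_cast; ring
  have h1 := (measure_mono (μ := mu) hsub).trans
    ((measure_union_le _ _).trans (add_le_add le_rfl (measure_iUnion_le _)))
  have h2 : ∀ k, mu {q | ‖lin (2 * d.Q k) (-2 * d.p k) (1 / 2) q‖ ≤ (1 / 2) ^ (k + 5)} =
      ENNReal.ofReal ((1 / 2) ^ (k + 2) / 4) := fun k => by
    rw [lin_ball _ _ _ _ (by have := d.Qpos k; omega)
      (pow_le_of_le_one (by norm_num) (by norm_num) (by omega))]
    congr 1; ring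
  simp only [h2] at h1
  rw [h0, lin_ball _ _ _ _ one_ne_zero (by norm_num), zero_add,
    ← ENNReal.ofReal_tsum_of_nonneg (fun _ => by positivity) (geo.summable.div_const 4),
    (geo.div_const 4).tsum_eq, ENNReal.ofReal_le_ofReal_iff (by norm_num)] at h1
  norm_num at h1

lemma A_ret {q : M} {τ : ℝ} (h1 : q ∈ d.A) (h2 : d.φ τ q ∈ d.A) : ‖(d.F q τ : T)‖ ≤ 1 / 4 := by
  have hu : ∀ q ∈ d.A, ∀ k, ((d.u k q : ℝ) : T) = 0 := fun q hq k => by
    rw [AddCircle.coe_eq_zero_iff]
    rcases hq.2 k with h | h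
    · exact ⟨0, by simp [u, h]⟩
    · exact ⟨3 ^ k, by simp [u, h]⟩
  have h3 := (d.hs q τ).map (QuotientAddGroup.mk' (AddSubgroup.zmultiples (1 : ℝ)))
    continuous_quotient_mk'
  have h4 : ((d.F q τ - d.θ * τ : ℝ) : T) = 0 := by
    refine h3.unique ?_
    convert hasSum_zero with k
    show ((_ - _ : ℝ) : T) = 0
    rw [AddCircle.coe_sub, hu _ h1, hu _ h2, sub_zero]
  rw [AddCircle.coe_sub, sub_eq_zero] at h4
  have h5 : ((d.θ * τ : ℝ) : T) = lin 1 0 0 (d.φ τ q) - lin 1 0 0 q := by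
    obtain ⟨g, rfl⟩ := Quotient.exists_rep q
    rw [φ, flow_mk, lin_mk, lin_mk, ← AddCircle.coe_sub]; congr 1; push_cast; ring
  rw [h4, h5]
  linarith [norm_sub_le (lin 1 0 0 (d.φ τ q)) (lin 1 0 0 q), h1.1, h2.1]

lemma jump (k : ℕ) (q : M) : |d.F q (1 / 2 / d.δ k) - d.θ * (1 / 2 / d.δ k) -
    3 ^ k * (U k (d.L k q + 1 / 2) - U k (d.L k q))| ≤ 3 ^ k / 2 + 1 / 2 := by
  set t := 1 / 2 / d.δ k with ht
  have hδ : 0 < d.δ k := d.dpos k
  have e1 : d.u k (d.φ t q) - d.u k q = 3 ^ k * (U k (d.L k q + 1 / 2) - U k (d.L k q)) := by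
    rw [u, u, d.per_φ (U_per k), ht, div_mul_cancel₀ _ hδ.ne']; ring
  have h1 := (d.hs q t).sub (hasSum_ite_eq k (d.u k (d.φ t q) - d.u k q))
  have h2 : HasSum (fun j => if j ∈ Finset.range k then (3 : ℝ) ^ j else 0)
      (∑ j ∈ Finset.range k, 3 ^ j) := by
    convert hasSum_sum_of_ne_finset_zero (s := Finset.range k) (L := .unconditional _)
      (f := fun j => if j ∈ Finset.range k then (3 : ℝ) ^ j else 0) (fun j hj => if_neg hj) using 1
    exact Finset.sum_congr rfl fun j hj => (if_pos hj).symm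
  have h3 := h1.norm_le_of_bounded (h2.add geo) fun j => by
    have p1 : (0 : ℝ) < (1 / 2) ^ (j + 2) := by positivity
    rcases lt_trichotomy j k with h | rfl | h
    · rw [if_neg h.ne, if_pos (Finset.mem_range.2 h), sub_zero, u, u, ← mul_sub, norm_mul,
        Real.norm_of_nonneg (by positivity)]
      have : ‖U j (d.L j (d.φ t q)) - U j (d.L j q)‖ ≤ 1 := by
        unfold U
        refine abs_le.2 ⟨?_, ?_⟩ <;>
        linarith [Real.smoothTransition.nonneg (2 ^ (j + 4) * Real.cos (2 * π * d.L j (d.φ t q))),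
          Real.smoothTransition.le_one (2 ^ (j + 4) * Real.cos (2 * π * d.L j (d.φ t q))),
          Real.smoothTransition.nonneg (2 ^ (j + 4) * Real.cos (2 * π * d.L j q)),
          Real.smoothTransition.le_one (2 ^ (j + 4) * Real.cos (2 * π * d.L j q))]
      nlinarith [pow_pos (three_pos (α := ℝ)) j]
    · simp
    · rw [if_neg h.ne', if_neg (by simp; omega), sub_zero, zero_add, ← d.a_int]
      refine (intervalIntegral.norm_integral_le_of_norm_le_const fun s _ => d.a_bd j _).trans ?_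
      have q1 : (d.Q (k + 1) : ℝ) ≤ d.Q j := by exact_mod_cast d.Qmono h
      have q2 : 1 ≤ d.δ k * d.Q (k + 1) := d.dlow k
      have q3 := d.Qp j
      rw [sub_zero, abs_of_pos (by positivity), div_mul_eq_mul_div, div_le_iff₀ (by linarith)]
      gcongr
      rw [ht, div_le_iff₀ hδ]; nlinarith
  rw [e1, geom_sum_eq (by norm_num)] at h3
  refine le_trans h3 ?_
  norm_num; linarith

lemma nontriv : ¬∃ (c : ℝ) (u : M → ℝ), AEMeasurable u mu ∧
    ∀ t, ∀ᵐ x ∂mu, u (d.φ t x) - u x = ∫ s in (0 : ℝ)..t, (d.α (d.φ s x) - c) := by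
  rintro ⟨c, w, hw, h⟩
  have hS : ∀ n : ℕ, NullMeasurableSet {q | (n : ℝ) < |w q|} mu := fun n =>
    nullMeasurableSet_lt aemeasurable_const hw.abs
  have h1 := tendsto_measure_iInter_atTop hS
    (fun m n hmn q (hq : (n : ℝ) < _) => show (m : ℝ) < _ from (Nat.cast_le.2 hmn).trans_lt hq) ⟨0, measure_ne_top _ _⟩
  rw [show ⋂ n : ℕ, {q | (n : ℝ) < |w q|} = ∅ from iInter_eq_empty_iff.2 fun q =>
    (exists_nat_ge |w q|).imp fun n hn => not_lt.2 hn, measure_empty] at h1
  obtain ⟨n, hn⟩ := (h1.eventually (gt_mem_nhds (show (0 : ENNReal) < ENNReal.ofReal (1 / 8) by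
    simp))).exists
  obtain ⟨k, hk⟩ := pow_unbounded_of_one_lt (4 * n + 1 : ℝ) (by norm_num : (1 : ℝ) < 3)
  set t := 1 / 2 / d.δ k
  have key : ∀ e : ℝ, ∃ q, ‖lin (d.Q k) (-d.p k) e q‖ ≤ 1 / 8 ∧ |d.F q t - c * t| ≤ 2 * n := by
    intro e
    by_contra hc
    push Not at hc
    have hle : {q | ‖lin (d.Q k) (-d.p k) e q‖ ≤ 1 / 8} ≤ᵐ[mu]
        ({q | (n : ℝ) < |w q|} ∪ d.φ t ⁻¹' {q | (n : ℝ) < |w q|} : Set M) := by
      filter_upwards [h t] with q hq hq'
      have := hc q hq'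
      rw [intervalIntegral.integral_sub ((d.α_cont q).intervalIntegrable _ _)
        intervalIntegrable_const, intervalIntegral.integral_const, sub_zero, smul_eq_mul,
        mul_comm] at hq
      rw [F, ← hq] at this
      by_contra hh
      have : ¬((n : ℝ) < |w q| ∨ (n : ℝ) < |w (d.φ t q)|) := hh
      push Not at this
      linarith [abs_sub (w (d.φ t q)) (w q)]
    have h2 := (measure_mono_ae hle).trans (measure_union_le _ _)
    rw [lin_ball _ _ _ _ (by have := d.Qpos k; omega) (by norm_num),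
      show mu (d.φ t ⁻¹' _) = _ from (mu_inv _ t).measure_preimage (hS n)] at h2
    have h3 := h2.trans_lt (ENNReal.add_lt_add hn hn)
    rw [← ENNReal.ofReal_add (by norm_num) (by norm_num)] at h3
    norm_num at h3
  obtain ⟨q1, a1, b1⟩ := key 0
  obtain ⟨q2, a2, b2⟩ := key (1 / 2)
  have j1 := d.jump k q1
  have j2 := d.jump k q2
  obtain ⟨g1, rfl⟩ := Quotient.exists_rep q1
  obtain ⟨g2, rfl⟩ := Quotient.exists_rep q2
  rw [d.per_L ((U_per k).add_const (1 / 2)), d.per_L (U_per k)] at j1 j2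
  rw [lin_mk] at a1 a2
  have c1 := U_one k (s := d.Q k * g1.2.1 - d.p k * g1.1) (by convert a1 using 3; push_cast; ring)
  have c2 := U_one k (s := d.Q k * g2.2.1 - d.p k * g2.1 + 1 / 2)
    (by convert a2 using 3; push_cast; ring)
  rw [add_assoc, add_halves, U_per k] at c2
  rw [c1.1, c1.2] at j1
  rw [c2.1, c2.2] at j2
  rw [abs_le] at j1 j2 b1 b2
  linarith [j1.2, j2.1, b1.1, b2.2]

end D
end Pool.Agent.H.MP_442888_an
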