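import Mathlib

open MeasureTheory Set

namespace Pool.Agent.H.MP_442888_an

/-- Heisenberg group law: (x, y, z) is the unipotent matrix with rows (1 x z), (0 1 y), (0 0 1) -/
def mul (g h : ℝ × ℝ × ℝ) : ℝ × ℝ × ℝ := (g.1 + h.1, g.2.1 + h.2.1, g.2.2 + h.2.2 + g.1 * h.2.1)

/-- orbits of left multiplication by the integer lattice -/
def lat : Setoid (ℝ × ℝ × ℝ) where
  r g h := ∃ a b c : ℤ, h = mul (a, b, c) g
  iseqv := ⟨fun g => ⟨0, 0, 0, by simp [mul]⟩,
    by rintro g _ ⟨a, b, c, rfl⟩; exact ⟨-a, -b, a * b - c, by simp [mul]; ring⟩,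
    by rintro g _ _ ⟨a, b, c, rfl⟩ ⟨d, e, f, rfl⟩
       exact ⟨d + a, e + b, f + c + d * b, by simp [mul, add_assoc]; ring⟩⟩

/-- normalised Haar measure of the nilmanifold: Lebesgue measure on the fundamental unit cube -/
noncomputable def mu : Measure (Quotient lat) :=
  (volume.restrict (Ico 0 1 ×ˢ Ico 0 1 ×ˢ Ico 0 1)).map (Quotient.mk lat)

/-- the nilflow of X = (p, q, r): right multiplication by exp (t X) -/
noncomputable def flow (X : ℝ × ℝ × ℝ) (t : ℝ) : Quotient lat → Quotient lat :=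
  Quotient.map (fun g => mul g (t * X.1, t * X.2.1, t * X.2.2 + t ^ 2 * X.1 * X.2.1 / 2))
    (by rintro g _ ⟨a, b, c, rfl⟩; exact ⟨a, b, c, by simp [mul, add_assoc]; ring⟩)

/-- the probability measure proportional to α dμ -/
noncomputable def nu (α : Quotient lat → ℝ) : Measure (Quotient lat) :=
  (∫⁻ x, ENNReal.ofReal (α x) ∂mu)⁻¹ • mu.withDensity fun x => ENNReal.ofReal (α x)

end Pool.Agent.H.MP_442888_an
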