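import Pool.Agent.H.MP_442888_an.A

open MeasureTheory Set Filter Topology UnitAddTorus
open scoped Real ComplexConjugate

namespace Pool.Agent.H.MP_442888_an

lemma coe_int (x : ℝ) (n : ℤ) : ((x + n : ℝ) : T) = x := by
  rw [← sub_eq_zero, ← AddCircle.coe_sub, AddCircle.coe_eq_zero_iff]
  exact ⟨n, by simp⟩

noncomputable def Phi : M → (Fin 3 → T) :=
  Quotient.lift (fun g => ![(g.1 : T), (g.2.1 : T), ((g.2.2 - ⌊g.1⌋ * g.2.1 : ℝ) : T)]) (by
    rintro g _ ⟨a, b, c, rfl⟩
    simp only [mul, Int.floor_intCast_add]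
    rw [add_comm (a : ℝ), add_comm (b : ℝ), coe_int, coe_int,
      ← coe_int (g.2.2 - ⌊g.1⌋ * g.2.1) (c - a * b - ⌊g.1⌋ * b)]
    congr 4; push_cast; ring)

lemma Phi_mk (g : ℝ × ℝ × ℝ) : Phi (Quotient.mk lat g) =
    ![(g.1 : T), (g.2.1 : T), ((g.2.2 - ⌊g.1⌋ * g.2.1 : ℝ) : T)] := rfl

lemma Phi_meas : Measurable Phi := by
  rw [meas_iff]
  refine measurable_pi_lambda _ fun i => ?_
  fin_cases i
  · exact AddCircle.measurable_mk'.comp measurable_fst
  · exact AddCircle.measurable_mk'.comp measurable_snd.fst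
  · exact AddCircle.measurable_mk'.comp
      (f := fun g : ℝ × ℝ × ℝ => (g.2.2 - ⌊g.1⌋ * g.2.1 : ℝ)) (by fun_prop)

noncomputable def rp (v : T) : ℝ := (AddCircle.equivIco 1 0 v : ℝ)

lemma rp_meas : Measurable rp :=
  measurable_subtype_coe.comp (AddCircle.measurableEquivIco 1 0).measurable

lemma rp_coe (x : ℝ) : rp x = Int.fract x := by
  simp [rp, AddCircle.coe_equivIco_mk_apply]

noncomputable def Psi (v : Fin 3 → T) : M := Quotient.mk lat (rp (v 0), rp (v 1), rp (v 2))

lemma Psi_meas : Measurable Psi := by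
  have h : ∀ i, Measurable fun v : Fin 3 → T => rp (v i) := fun i =>
    rp_meas.comp (measurable_pi_apply i)
  have h2 : Measurable fun v : Fin 3 → T => (rp (v 0), rp (v 1), rp (v 2)) :=
    (h 0).prodMk ((h 1).prodMk (h 2))
  exact mk_meas.comp h2

lemma Psi_Phi (q : M) : Psi (Phi q) = q := by
  obtain ⟨⟨x, y, z⟩, rfl⟩ := Quotient.exists_rep q
  simp only [Psi, Phi_mk, Matrix.cons_val_zero, Matrix.cons_val_one, Matrix.cons_val, rp_coe]
  rw [← mk_eq ⌊x⌋ ⌊y⌋ (⌊z - ⌊x⌋ * y⌋ + ⌊x⌋ * ⌊y⌋)]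
  congr 1
  simp only [Int.fract]
  push_cast
  ext <;> simp only <;> ring

lemma uniqT (m₁ m₂ : Measure (Fin 3 → T)) [IsFiniteMeasure m₁] [IsFiniteMeasure m₂]
    (h : ∀ n, ∫ v, mFourier n v ∂m₁ = ∫ v, mFourier n v ∂m₂) : m₁ = m₂ := by
  have hi : ∀ (m : Measure (Fin 3 → T)) [IsFiniteMeasure m] (f : C(Fin 3 → T, ℂ)),
      Integrable f m := fun m _ f =>
    f.continuous.integrable_of_hasCompactSupport (HasCompactSupport.of_compactSpace _)
  have hc : ∀ (m : Measure (Fin 3 → T)) [IsFiniteMeasure m],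
      Continuous fun f : C(Fin 3 → T, ℂ) => ∫ v, f v ∂m := by
    intro m _
    refine (LipschitzWith.of_dist_le_mul (K := ⟨m.real univ, measureReal_nonneg⟩)
      fun f g => ?_).continuous
    rw [dist_eq_norm, ← integral_sub (hi m f) (hi m g), mul_comm]
    exact norm_integral_le_of_norm_le_const (.of_forall fun v => by
      rw [← dist_eq_norm]; exact ContinuousMap.dist_apply_le_dist v)
  have key : ∀ f : C(Fin 3 → T, ℂ), ∫ v, f v ∂m₁ = ∫ v, f v ∂m₂ := by
    intro f
    have hf : f ∈ closure (Submodule.span ℂ (range (mFourier (d := Fin 3))) : Set _) := by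
      rw [← Submodule.topologicalClosure_coe, span_mFourier_closure_eq_top]; trivial
    refine closure_minimal (t := {f : C(Fin 3 → T, ℂ) | ∫ v, f v ∂m₁ = ∫ v, f v ∂m₂}) ?_
      (isClosed_eq (hc m₁) (hc m₂)) hf
    intro g hg
    induction hg using Submodule.span_induction with
    | mem x hx => obtain ⟨n, rfl⟩ := hx; exact h n
    | zero => simp
    | add x y _ _ hx hy =>
      simp only [mem_ofPred_eq, ContinuousMap.add_apply] at *
      rw [integral_add (hi _ x) (hi _ y), integral_add (hi _ x) (hi _ y), hx, hy]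
    | smul a x _ hx =>
      simp only [mem_ofPred_eq, ContinuousMap.smul_apply, integral_smul] at *
      rw [hx]
  refine ext_of_forall_integral_eq_of_IsFiniteMeasure fun f => ?_
  have := key ⟨fun v => (f v : ℂ), by fun_prop⟩
  simp only [ContinuousMap.coe_mk, integral_complex_ofReal] at this
  exact_mod_cast this

noncomputable def E (s : ℝ) : ℂ := Complex.exp (2 * π * Complex.I * s)

lemma E_add (s t : ℝ) : E (s + t) = E s * E t := by simp [E, ← Complex.exp_add, mul_add]

lemma E_conj (s : ℝ) : conj (E s) = E (-s) := by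
  simp [E, ← Complex.exp_conj, Complex.conj_ofReal, map_ofNat]

lemma E_norm (s : ℝ) : ‖E s‖ = 1 := by
  rw [E, show 2 * π * Complex.I * s = ((2 * π * s : ℝ) : ℂ) * Complex.I by push_cast; ring]
  exact Complex.norm_exp_ofReal_mul_I _

lemma E_half : E (1 / 2) = -1 := by
  rw [E, ← Complex.exp_pi_mul_I]; congr 1; push_cast; ring

lemma E_int (k : ℤ) (hk : k ≠ 0) (c : ℝ) : ∫ y in I, E (k * y + c) = 0 := by
  have h : (2 * π * Complex.I * k : ℂ) ≠ 0 := by simp [hk, Real.pi_ne_zero]
  rw [setIntegral_congr_set Ico_ae_eq_Ioc, ← intervalIntegral.integral_of_le zero_le_one]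
  simp only [E_add, intervalIntegral.integral_mul_const]
  have : ∫ y : ℝ in (0 : ℝ)..1, E (k * y) = 0 := by
    have := integral_exp_mul_complex (a := 0) (b := 1) h
    simp only [E, Complex.ofReal_mul, Complex.ofReal_intCast, ← mul_assoc, this]
    simp [mul_comm _ (k : ℂ), Complex.exp_int_mul_two_pi_mul_I]
  rw [this, zero_mul]

noncomputable def ch (n : Fin 3 → ℤ) (q : M) : ℂ := mFourier n (Phi q)

lemma ch_mk (n : Fin 3 → ℤ) (x y z : ℝ) :
    ch n (Quotient.mk lat (x, y, z)) = E (n 0 * x + n 1 * y + n 2 * (z - ⌊x⌋ * y)) := by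
  simp only [ch, Phi_mk, mFourier, ContinuousMap.coe_mk, Fin.prod_univ_three, Matrix.cons_val_zero,
    Matrix.cons_val_one, Matrix.cons_val, fourier_coe_apply, E, ← Complex.exp_add]
  congr 1; push_cast; ring

lemma ch_meas (n : Fin 3 → ℤ) : Measurable (ch n) := (mFourier n).continuous.measurable.comp Phi_meas

lemma ch_norm (n : Fin 3 → ℤ) (q : M) : ‖ch n q‖ = 1 := by
  obtain ⟨⟨x, y, z⟩, rfl⟩ := Quotient.exists_rep q
  rw [ch_mk, E_norm]

variable {θ : ℝ} {m : Measure M} [IsProbabilityMeasure m]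

omit [IsProbabilityMeasure m] in
lemma int_flow (hm : ∀ t, MeasurePreserving (flow (1, θ, 0) t) m m) (n : Fin 3 → ℤ) (t : ℝ) :
    ∫ q, ch n (flow (1, θ, 0) t q) ∂m = ∫ q, ch n q ∂m := by
  rw [← integral_map (hm t).measurable.aemeasurable (ch_meas n).aestronglyMeasurable,
    (hm t).map_eq]

lemma coef0 (hθ : Irrational θ) (hm : ∀ t, MeasurePreserving (flow (1, θ, 0) t) m m)
    (n : Fin 3 → ℤ) (h2 : n 2 = 0) : ∫ q, ch n q ∂m = if n = 0 then 1 else 0 := by
  split_ifs with hn
  · simp [hn, ch, mFourier_zero]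
  have hne : (n 0 : ℝ) + n 1 * θ ≠ 0 := by
    by_cases h1 : n 1 = 0
    · have : n 0 ≠ 0 := fun h0 => hn (by ext i; fin_cases i <;> simp [h0, h1, h2])
      simp [h1, this]
    · exact ((hθ.intCast_mul h1).intCast_add _).ne_zero
  have h := int_flow hm n (1 / 2 / (n 0 + n 1 * θ))
  have h3 : ∀ q, ch n (flow (1, θ, 0) (1 / 2 / (n 0 + n 1 * θ)) q) = -ch n q := by
    intro q
    obtain ⟨⟨x, y, z⟩, rfl⟩ := Quotient.exists_rep q
    rw [flow_mk, ch_mk, ch_mk, ← mul_neg_one, ← E_half, ← E_add, h2]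
    congr 1; field_simp; push_cast; ring
  simp only [h3, integral_neg] at h
  linear_combination (-1 / 2 : ℂ) * h

/-- forget the central coordinate -/
def pr (v : Fin 3 → T) : Fin 3 → T := ![v 0, v 1, 0]

lemma pr_meas : Measurable pr := by
  refine measurable_pi_lambda _ fun i => ?_
  fin_cases i
  · exact measurable_pi_apply 0
  · exact measurable_pi_apply 1
  · exact measurable_const

lemma proj (hθ : Irrational θ) (hm : ∀ t, MeasurePreserving (flow (1, θ, 0) t) m m)
    (h : M → ℂ) (hh : Measurable h)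
    (hz : ∀ x y z, h (Quotient.mk lat (x, y, z)) = h (Quotient.mk lat (x, y, 0))) :
    ∫ q, h q ∂m = ∫ q, h q ∂mu := by
  have hP : Measurable (pr ∘ Phi) := pr_meas.comp Phi_meas
  have h1 : m.map (pr ∘ Phi) = mu.map (pr ∘ Phi) := by
    refine uniqT _ _ fun n => ?_
    have : ∀ q, mFourier n ((pr ∘ Phi) q) = ch ![n 0, n 1, 0] q := by
      intro q; simp [ch, pr, mFourier, Fin.prod_univ_three]
    rw [integral_map hP.aemeasurable (mFourier n).continuous.aestronglyMeasurable,
      integral_map hP.aemeasurable (mFourier n).continuous.aestronglyMeasurable]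
    simp only [this]
    rw [coef0 hθ hm _ rfl, coef0 hθ (mu_inv _) _ rfl]
  have h2 : ∀ q, h q = h (Psi ((pr ∘ Phi) q)) := by
    intro q
    conv_lhs => rw [← Psi_Phi q]
    simp only [Psi, pr, Function.comp, Matrix.cons_val_zero, Matrix.cons_val_one, Matrix.cons_val]
    rw [hz, hz _ _ (rp 0)]
  have h3 : ∀ m' : Measure M, ∫ q, h q ∂m' = ∫ v, h (Psi v) ∂(m'.map (pr ∘ Phi)) := fun m' => by
    rw [integral_map (f := fun v => h (Psi v)) hP.aemeasurable
      (hh.comp Psi_meas).aestronglyMeasurable]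
    exact integral_congr_ae (.of_forall h2)
  rw [h3, h3, h1]

lemma orth (hθ : Irrational θ) (hm : ∀ t, MeasurePreserving (flow (1, θ, 0) t) m m)
    (n : Fin 3 → ℤ) (h2 : n 2 ≠ 0) (i j : ℕ) (hij : i ≠ j) :
    ∫ q, ch n (flow (1, θ, 0) j q) * conj (ch n (flow (1, θ, 0) i q)) ∂m = 0 := by
  obtain ⟨G, hG⟩ : ∃ G : ℝ → ℝ, ∀ x y z,
      ch n (flow (1, θ, 0) j (Quotient.mk lat (x, y, z))) *
        conj (ch n (flow (1, θ, 0) i (Quotient.mk lat (x, y, z)))) =
      E (((n 2 * (i - j) : ℤ) : ℝ) * y + G x) := by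
    refine ⟨fun x => n 0 * (j - i) + n 1 * (j - i) * θ + n 2 * ((j ^ 2 - i ^ 2) * θ / 2 +
      x * (j - i) * θ - (⌊x⌋ + j) * j * θ + (⌊x⌋ + i) * i * θ), fun x y z => ?_⟩
    simp only [flow_mk, ch_mk, E_conj, ← E_add, mul_one, Int.floor_add_natCast]
    congr 1; push_cast; ring
  have hmeas : Measurable fun q => ch n (flow (1, θ, 0) j q) * conj (ch n (flow (1, θ, 0) i q)) :=
    ((ch_meas n).comp (flow_meas _ _)).mul
      (Complex.continuous_conj.measurable.comp ((ch_meas n).comp (flow_meas _ _)))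
  rw [proj hθ hm _ hmeas (fun x y z => by rw [hG, hG])]
  unfold mu
  rw [integral_map mk_meas.aemeasurable hmeas.aestronglyMeasurable, Measure.volume_eq_prod,
    ← Measure.prod_restrict, integral_prod]
  · refine integral_eq_zero_of_ae (.of_forall fun x => ?_)
    have : ∀ p : ℝ × ℝ, _ = _ := fun p => hG x p.1 p.2
    simp only [Prod.mk.eta] at this
    simp only [this, Pi.zero_apply]
    rw [Measure.volume_eq_prod, ← Measure.prod_restrict,
      integral_fun_fst (fun y => E (((n 2 * (i - j) : ℤ) : ℝ) * y + G x)),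
      E_int _ (mul_ne_zero h2 (by omega)), smul_zero]
  · have : IsFiniteMeasure (volume.restrict (Ico (0 : ℝ) 1 ×ˢ Ico (0 : ℝ) 1)) := by
      rw [Measure.volume_eq_prod, ← Measure.prod_restrict]; infer_instance
    exact Integrable.of_bound (hmeas.comp mk_meas).aestronglyMeasurable 1
      (.of_forall fun g => by simp [ch_norm])

lemma coefk (hθ : Irrational θ) (hm : ∀ t, MeasurePreserving (flow (1, θ, 0) t) m m)
    (n : Fin 3 → ℤ) (h2 : n 2 ≠ 0) : ∫ q, ch n q ∂m = 0 := by
  have hL : ∀ j : ℕ, MemLp (fun q => ch n (flow (1, θ, 0) j q)) 2 m := fun j =>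
    MemLp.of_bound ((ch_meas n).comp (flow_meas _ _)).aestronglyMeasurable 1
      (.of_forall fun q => (ch_norm _ _).le)
  have ho : Orthonormal ℂ fun j => (hL j).toLp := by
    rw [orthonormal_iff_ite]
    intro i j
    rw [L2.inner_def, integral_congr_ae (g := fun q =>
      ch n (flow (1, θ, 0) j q) * conj (ch n (flow (1, θ, 0) i q)))]
    · split_ifs with hij
      · simp [hij, Complex.mul_conj, Complex.normSq_eq_norm_sq, ch_norm]
      · exact orth hθ hm n h2 i j hij
    · filter_upwards [(hL i).coeFn_toLp, (hL j).coeFn_toLp] with q hi hj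
      simp [hi, hj]
  have hs := ho.inner_products_summable (x := (memLp_const (1 : ℂ)).toLp)
  have : ∀ j, inner ℂ (hL j).toLp (memLp_const (1 : ℂ)).toLp = conj (∫ q, ch n q ∂m) := by
    intro j
    rw [L2.inner_def, ← int_flow hm n j, ← integral_conj]
    refine integral_congr_ae ?_
    filter_upwards [(hL j).coeFn_toLp, (memLp_const (μ := m) (p := 2) (1 : ℂ)).coeFn_toLp]
      with q hi hj
    rw [hi, hj]; simp
  simp only [this, summable_const_iff] at hs
  simpa using hs

theorem uniq (hθ : Irrational θ) (hm : ∀ t, MeasurePreserving (flow (1, θ, 0) t) m m) :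
    m = mu := by
  have h1 : m.map Phi = mu.map Phi := by
    refine uniqT _ _ fun n => ?_
    rw [integral_map Phi_meas.aemeasurable (mFourier n).continuous.aestronglyMeasurable,
      integral_map Phi_meas.aemeasurable (mFourier n).continuous.aestronglyMeasurable]
    change ∫ q, ch n q ∂m = ∫ q, ch n q ∂mu
    by_cases h2 : n 2 = 0
    · rw [coef0 hθ hm _ h2, coef0 hθ (mu_inv _) _ h2]
    · rw [coefk hθ hm _ h2, coefk hθ (mu_inv _) _ h2]
  have h2 : ∀ m' : Measure M, (m'.map Phi).map Psi = m' := fun m' => by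
    rw [Measure.map_map Psi_meas Phi_meas, show Psi ∘ Phi = id from funext Psi_Phi, Measure.map_id]
  rw [← h2 m, h1, h2]

end Pool.Agent.H.MP_442888_an
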